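import Mathlib
import Pool.Agent.Helper79L.LS.Space

set_option autoImplicit false

/-! Almost disjoint families and Corson compacta. -/

namespace Pool.Agent.Helper79L.MF

open Set Topology Cardinal
open Pool.Agent.Helper79L.LS

variable {I J : Type} {A : J → Set I}

/-- The subfamily indexed by `T` becomes point-countable after removing finite sets. -/
def PC (A : J → Set I) (T : Set J) : Prop :=
  ∃ F : J → Set I, (∀ j ∈ T, (F j).Finite) ∧ ∀ i, {j | j ∈ T ∧ i ∈ A j ∧ i ∉ F j}.Countable

theorem nec {Y : Set (Sp A)} {T : Set J} (hinf : sinf A ∈ Y) (hlim : ∀ j ∈ T, slim A j ∈ Y)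
    (hiso : ∀ i, ¬ ({j | j ∈ T ∧ i ∈ A j} : Set J).Countable → siso A i ∈ Y) {Γ : Type} (f : Y → (Γ → ℝ)) (hf : Continuous f)
    (hinj : Function.Injective f) (hc : ∀ x, (Function.support (f x)).Countable) : PC A T := by
  classical
  have hcont : ∀ t, Continuous fun x => f x t := fun t => (continuous_apply t).comp hf
  let o : Y := ⟨sinf A, hinf⟩
  have hD : ∀ s : Γ, ({j : J | ∃ h : slim A j ∈ Y, f ⟨slim A j, h⟩ s ≠ f o s}).Countable := by
    intro s
    have h1 : ∀ n : ℕ, ({j : J | ∃ h : slim A j ∈ Y,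
        1 / ((n : ℝ) + 1) ≤ |f ⟨slim A j, h⟩ s - f o s|}).Finite := by
      intro n
      have hV : IsOpen {x : Y | |f x s - f o s| < 1 / ((n : ℝ) + 1)} :=
        isOpen_lt ((hcont s).sub continuous_const).abs continuous_const
      obtain ⟨V, hVo, hVe⟩ := isOpen_induced_iff.1 hV
      have hoV : sinf A ∈ V := by
        have : o ∈ Subtype.val ⁻¹' V := by
          rw [hVe]
          simp only [mem_ofPred_eq, sub_self, abs_zero]
          positivity
        exact this
      obtain ⟨F, hF, h2, -⟩ := ((isOpen_def _).1 hVo).2 hoV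
      refine hF.subset fun j hj => ?_
      obtain ⟨h, hj⟩ := hj
      by_contra hn
      have h3 : (⟨slim A j, h⟩ : Y) ∈ Subtype.val ⁻¹' V := h2 j hn
      rw [hVe] at h3
      exact absurd h3 (not_lt.2 hj)
    refine (countable_iUnion fun n => (h1 n).countable).mono ?_
    rintro j ⟨h, hj⟩
    rw [mem_iUnion]
    have h3 : 0 < |f ⟨slim A j, h⟩ s - f o s| := abs_pos.2 (sub_ne_zero.2 hj)
    obtain ⟨n, hn⟩ := exists_nat_one_div_lt h3
    exact ⟨n, h, hn.le⟩
  have hsep : ∀ j ∈ T, ∃ t : Γ, ∃ h : slim A j ∈ Y, f ⟨slim A j, h⟩ t ≠ f o t := by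
    intro j hj
    have h1 : f ⟨slim A j, hlim j hj⟩ ≠ f o := fun h => by
      have := congrArg Subtype.val (hinj h)
      exact absurd this lim_ne_inf
    obtain ⟨t, ht⟩ := Function.ne_iff.1 h1
    exact ⟨t, hlim j hj, ht⟩
  choose t ht using fun j : T => hsep j j.2
  refine ⟨fun j => {i | ∃ h : j ∈ T, i ∈ A j ∧ ∃ hi : siso A i ∈ Y,
    f ⟨siso A i, hi⟩ (t ⟨j, h⟩) = f o (t ⟨j, h⟩)}, ?_, ?_⟩
  · intro j hj
    obtain ⟨h, hne⟩ := ht ⟨j, hj⟩
    have hU : IsOpen {x : Y | f x (t ⟨j, hj⟩) ≠ f o (t ⟨j, hj⟩)} :=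
      isOpen_ne_fun (hcont _) continuous_const
    obtain ⟨V, hVo, hVe⟩ := isOpen_induced_iff.1 hU
    have hjV : slim A j ∈ V := by
      have : (⟨slim A j, h⟩ : Y) ∈ Subtype.val ⁻¹' V := by rw [hVe]; exact hne
      exact this
    refine (((isOpen_def _).1 hVo).1 j hjV).subset ?_
    rintro i ⟨_, hi, hiY, he⟩
    refine ⟨hi, fun hV => ?_⟩
    have h3 : (⟨siso A i, hiY⟩ : Y) ∈ Subtype.val ⁻¹' V := hV
    rw [hVe] at h3
    exact h3 he
  · intro i
    by_cases hi : siso A i ∈ Y
    · have hC : (Function.support (f ⟨siso A i, hi⟩) ∪ Function.support (f o)).Countable :=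
        (hc _).union (hc _)
      refine (hC.biUnion fun s _ => hD s).mono ?_
      rintro j ⟨hj, hij, hF⟩
      obtain ⟨h, hne⟩ := ht ⟨j, hj⟩
      rw [mem_iUnion₂]
      refine ⟨t ⟨j, hj⟩, ?_, h, hne⟩
      by_contra hn
      rw [mem_union, not_or, Function.notMem_support, Function.notMem_support] at hn
      exact hF ⟨hj, hij, hi, hn.1.trans hn.2.symm⟩
    · have h : ({j | j ∈ T ∧ i ∈ A j} : Set J).Countable := by_contra fun hn => hi (hiso i hn)
      refine h.mono ?_
      rintro j ⟨h1, h2, -⟩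
      exact ⟨h1, h2⟩

theorem suff (had : ∀ j j', j ≠ j' → (A j ∩ A j').Finite) {Y : Set (Sp A)} (hY : IsClosed Y)
    {T : Set J} (hT : ∀ j, slim A j ∈ Y → j ∈ T) (hP : PC A T) :
    ∃ (Γ : Type) (f : Y → (Γ → ℝ)), IsEmbedding f ∧ ∀ x, (Function.support (f x)).Countable := by
  classical
  obtain ⟨F0, hF0, hcF⟩ := hP
  let B : J → Set I := fun j => {i | i ∈ A j ∧ i ∉ F0 j}
  have hB : ∀ j ∈ T, (A j \ B j).Finite := fun j hj => (hF0 j hj).subset fun i hi => by
    by_contra h
    exact hi.2 ⟨hi.1, h⟩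
  let U : I ⊕ J → Set (Sp A) := fun t =>
    match t with
    | Sum.inl i => {siso _ i}
    | Sum.inr j => if j ∈ T then Vs _ j (B j) else ∅
  have hU : ∀ t, IsClopen (U t) := by
    rintro (i | j)
    · exact clopen_iso i
    · by_cases h : j ∈ T
      · simp only [U, h, if_true]
        exact clopen_Vs had j (fun i hi => hi.1) (hB j h)
      · simp only [U, h, if_false]
        exact isClopen_empty
  let F : Sp A → (I ⊕ J → ℝ) := fun x t => (U t).indicator (fun _ => (1 : ℝ)) x
  have hFc : Continuous F := by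
    refine continuous_pi fun t => ?_
    refine continuous_const.indicator ?_
    intro a ha
    rw [(hU t).frontier_eq] at ha
    exact absurd ha (notMem_empty _)
  have hF1 : ∀ x t, F x t ≠ 0 ↔ x ∈ U t := by
    intro x t
    simp [F, Set.indicator_apply]
  have hFU : ∀ x y, F x = F y → ∀ t, x ∈ U t → y ∈ U t := by
    intro x y hxy t hx
    rw [← hF1, ← hxy, hF1]
    exact hx
  have hhalf : ∀ x ∈ Y, ∀ y ∈ Y, F x = F y → x ≠ sinf _ → x = y := by
    intro x hx y hy hxy hne
    rcases cases_pt x with ⟨i, rfl⟩ | ⟨j, rfl⟩ | rfl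
    · have h1 : y ∈ U (Sum.inl i) := hFU _ _ hxy (Sum.inl i) rfl
      exact (show y = siso _ i from h1).symm
    · have hj : j ∈ T := hT j hx
      have h1 : y ∈ U (Sum.inr j) := hFU _ _ hxy (Sum.inr j) (by simp [U, hj])
      simp only [U, hj, if_true] at h1
      rcases h1 with h1 | ⟨i, -, h1⟩
      · exact h1.symm
      · have h2 : slim _ j ∈ U (Sum.inl i) := hFU _ _ hxy.symm (Sum.inl i) h1
        exact absurd h2 (by simp [U])
    · exact absurd rfl hne
  have hinj : ∀ x ∈ Y, ∀ y ∈ Y, F x = F y → x = y := by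
    intro x hx y hy hxy
    by_cases h : x = sinf _
    · by_cases h' : y = sinf _
      · rw [h, h']
      · exact (hhalf y hy x hx hxy.symm h').symm
    · exact hhalf x hx y hy hxy h
  have : CompactSpace Y := isCompact_iff_compactSpace.1 hY.isCompact
  refine ⟨I ⊕ J, fun x => F x, ?_, ?_⟩
  · refine (Continuous.isClosedEmbedding (hFc.comp continuous_subtype_val) ?_).isEmbedding
    intro x y hxy
    exact Subtype.ext (hinj x x.2 y y.2 hxy)
  · rintro ⟨x, hx⟩
    have hsup : Function.support (F x) = {t | x ∈ U t} := by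
      ext t
      exact hF1 x t
    show (Function.support (F x)).Countable
    rw [hsup]
    rcases cases_pt x with ⟨i, rfl⟩ | ⟨j, rfl⟩ | rfl
    · refine ((countable_singleton (Sum.inl i)).union ((hcF i).image Sum.inr)).mono ?_
      rintro (i' | j) ht
      · left
        have : siso A i = siso _ i' := ht
        rw [iso_inj] at this
        simp [this]
      · right
        by_cases hj : j ∈ T
        · have h2 : siso A i ∈ U (Sum.inr j) := ht
          simp only [U, hj, if_true, iso_mem_Vs] at h2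
          exact ⟨j, ⟨hj, h2⟩, rfl⟩
        · have h2 : siso A i ∈ U (Sum.inr j) := ht
          simp [U, hj] at h2
    · refine (countable_singleton (Sum.inr j)).mono ?_
      rintro (i' | j') ht
      · have : slim A j = siso _ i' := ht
        simp at this
      · have h2 : slim A j ∈ U (Sum.inr j') := ht
        by_cases hj : j' ∈ T
        · simp only [U, hj, if_true, lim_mem_Vs] at h2
          simp [h2]
        · simp [U, hj] at h2
    · refine countable_empty.mono ?_
      rintro (i' | j') ht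
      · have : sinf A = siso _ i' := ht
        simp at this
      · have h2 : sinf A ∈ U (Sum.inr j') := ht
        by_cases hj : j' ∈ T
        · simp [U, hj] at h2
        · simp [U, hj] at h2

theorem card_lim (had : ∀ j j', j ≠ j' → (A j ∩ A j').Finite) (A₀ : Set (Sp A)) (hA : #A₀ ≤ 𝔠) : #{j | slim A j ∈ closure A₀} ≤ 𝔠 := by
  classical
  let D : Set I := {i | siso _ i ∈ A₀}
  have hD : #D ≤ 𝔠 := by
    refine le_trans ?_ hA
    refine mk_le_of_injective (f := fun i : D => (⟨siso _ i.1, i.2⟩ : A₀)) ?_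
    intro x y hxy
    have : siso A x.1 = siso _ y.1 := congrArg Subtype.val hxy
    exact Subtype.ext (iso_inj.1 this)
  let P : Set J := {j | slim A j ∈ A₀}
  let Q : Set J := {j | (A j ∩ D).Infinite}
  have hsub : {j | slim A j ∈ closure A₀} ⊆ P ∪ Q := by
    intro j hcl
    by_cases h1 : slim A j ∈ A₀
    · exact Or.inl h1
    by_cases h3 : (A j ∩ D).Finite
    · exfalso
      have h4 := clopen_Vs had j (B := A j \ D) (fun i hi => hi.1)
        (h3.subset fun i hi => ⟨hi.1, by_contra fun h => hi.2 ⟨hi.1, h⟩⟩)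
      obtain ⟨x, hx, hxA⟩ := mem_closure_iff.1 hcl _ h4.isOpen (by simp)
      rcases hx with rfl | ⟨i, hi, rfl⟩
      · exact h1 hxA
      · exact hi.2 hxA
    · exact Or.inr h3
  have hP : #P ≤ 𝔠 := by
    refine le_trans ?_ hA
    refine mk_le_of_injective (f := fun j : P => (⟨slim _ j.1, j.2⟩ : A₀)) ?_
    intro x y hxy
    have : slim A x.1 = slim _ y.1 := congrArg Subtype.val hxy
    exact Subtype.ext (lim_inj.1 this)
  have hQ : #Q ≤ 𝔠 := by
    have hen : ∀ j : Q, ∃ e : ℕ → D, Function.Injective e ∧ ∀ n, (e n).1 ∈ A j := by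
      intro j
      let g := Set.Infinite.natEmbedding _ j.2
      exact ⟨fun n => ⟨(g n).1, (g n).2.2⟩,
        fun a b h => g.injective (Subtype.ext (congrArg (fun z : D => z.1) h)),
        fun n => (g n).2.1⟩
    choose e he using hen
    have hinj : Function.Injective e := by
      intro x y hxy
      by_contra hne
      have h1 : (A x.1 ∩ A y.1).Finite := had _ _ fun h => hne (Subtype.ext h)
      have h2 : (range fun n => (e x n).1).Infinite :=
        infinite_range_of_injective (Subtype.val_injective.comp (he x).1)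
      refine h2 (h1.subset ?_)
      rintro _ ⟨n, rfl⟩
      refine ⟨(he x).2 n, ?_⟩
      have h3 := (he y).2 n
      rwa [← hxy] at h3
    calc #Q ≤ #(ℕ → D) := mk_le_of_injective hinj
      _ = #D ^ ℵ₀ := by simp
      _ ≤ 𝔠 ^ ℵ₀ := power_le_power_right hD
      _ = 𝔠 := continuum_power_aleph0
  calc #{j | slim A j ∈ closure A₀} ≤ #(P ∪ Q : Set J) := mk_le_mk_of_subset hsub
    _ ≤ #P + #Q := mk_union_le _ _
    _ ≤ 𝔠 + 𝔠 := add_le_add hP hQ
    _ = 𝔠 := continuum_add_self

theorem whole (had : ∀ j j', j ≠ j' → (A j ∩ A j').Finite) :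
    (∃ (Γ : Type) (f : Sp A → (Γ → ℝ)), IsEmbedding f ∧
      ∀ x, (Function.support (f x)).Countable) ↔ PC A univ := by
  constructor
  · rintro ⟨Γ, f, hf, hc⟩
    exact nec (Y := univ) (mem_univ _) (fun _ _ => mem_univ _) (fun _ _ => mem_univ _)
      (fun x => f x) (hf.continuous.comp continuous_subtype_val)
      (fun x y h => Subtype.ext (hf.injective h)) fun x => hc x
  · intro h
    obtain ⟨Γ, f, hf, hc⟩ := suff had (Y := univ) isClosed_univ (fun _ _ => mem_univ _) h
    exact ⟨Γ, fun x => f ⟨x, mem_univ x⟩, hf.comp (Homeomorph.Set.univ (Sp A)).symm.isEmbedding,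
      fun x => hc _⟩

theorem small (had : ∀ j j', j ≠ j' → (A j ∩ A j').Finite) :
    (∀ A₀ : Set (Sp A), #A₀ ≤ 𝔠 → ∃ (Γ : Type) (f : ↥(closure A₀) → (Γ → ℝ)), IsEmbedding f ∧
      ∀ x, (Function.support (f x)).Countable) ↔ ∀ T : Set J, #T ≤ 𝔠 → PC A T := by
  constructor
  · intro h T hT
    let D : Set I := {i | ¬ ({j | j ∈ T ∧ i ∈ A j} : Set J).Countable}
    have hD : #D ≤ 𝔠 := by
      have h0 : D ⊆ ⋃ p : {p : T × T // p.1 ≠ p.2}, (A p.1.1 ∩ A p.1.2) := by
        intro i hi
        have h2 : ¬ ({j | j ∈ T ∧ i ∈ A j} : Set J).Subsingleton := fun h => hi h.countable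
        obtain ⟨j, hj, j', hj', hne⟩ := Set.not_subsingleton_iff.1 h2
        rw [mem_iUnion]
        exact ⟨⟨(⟨j, hj.1⟩, ⟨j', hj'.1⟩), fun h => hne (congrArg Subtype.val h)⟩, hj.2, hj'.2⟩
      refine (mk_le_mk_of_subset h0).trans ((mk_iUnion_le _).trans ?_)
      have h3 : (⨆ p : {p : T × T // p.1 ≠ p.2}, #(A p.1.1 ∩ A p.1.2 : Set I)) ≤ 𝔠 :=
        ciSup_le' fun p => (le_aleph0_iff_set_countable.2
          (had _ _ fun h => p.2 (Subtype.ext h)).countable).trans aleph0_le_continuum
      have h4 : #{p : T × T // p.1 ≠ p.2} ≤ 𝔠 := by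
        refine (mk_subtype_le _).trans ?_
        simp only [mk_prod, lift_id]
        exact (mul_le_mul' hT hT).trans continuum_mul_self.le
      exact (mul_le_mul' h4 h3).trans continuum_mul_self.le
    let A₀ : Set (Sp A) := (slim A '' T ∪ {sinf A}) ∪ siso A '' D
    have h1 : #A₀ ≤ 𝔠 := by
      calc #A₀ ≤ #(slim A '' T ∪ {sinf A} : Set (Sp A)) + #(siso A '' D : Set (Sp A)) :=
            mk_union_le _ _
        _ ≤ (#(slim A '' T : Set (Sp A)) + #({sinf A} : Set (Sp A))) + 𝔠 :=
            add_le_add (mk_union_le _ _) (mk_image_le.trans hD)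
        _ ≤ (𝔠 + 𝔠) + 𝔠 := by
            refine add_le_add (add_le_add (mk_image_le.trans hT) ?_) le_rfl
            rw [mk_singleton]
            exact one_le_aleph0.trans aleph0_le_continuum
        _ = 𝔠 := by rw [continuum_add_self, continuum_add_self]
    obtain ⟨Γ, f, hf, hc⟩ := h A₀ h1
    exact nec (Y := closure A₀) (subset_closure (Or.inl (Or.inr rfl)))
      (fun j hj => subset_closure (Or.inl (Or.inl ⟨j, hj, rfl⟩)))
      (fun i hi => subset_closure (Or.inr ⟨i, hi, rfl⟩)) f hf.continuous hf.injective hc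
  · intro h A₀ hA
    exact suff had isClosed_closure (fun _ h => h) (h _ (card_lim had A₀ hA))

end Pool.Agent.Helper79L.MF
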